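import Pool.Agent.H13.LN.Targets

/-!
# Row RES of the board lnt_modules (helper21)

Resolutions of a singular word.
-/

set_option autoImplicit false

open Finset Pool.Agent.H59.LIN Pool.Agent.H13.LN

namespace Pool.Agent.H21.LNT

/-- the part of a set without the first point -/
def pre {m : ℕ} (ε : Finset (Fin (m + 1))) : Finset (Fin m) := univ.filter (fun i => i.succ ∈ ε)

theorem pre_map {m : ℕ} (s : Finset (Fin m)) : pre (s.map (Fin.succEmb m)) = s := by
  ext i
  simp [pre]

theorem pre_insert {m : ℕ} (s : Finset (Fin m)) : pre (insert 0 (s.map (Fin.succEmb m))) = s := by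
  ext i
  simp [pre, Fin.succ_ne_zero]

theorem eq_map {m : ℕ} (ε : Finset (Fin (m + 1))) (h : 0 ∉ ε) :
    ε = (pre ε).map (Fin.succEmb m) := by
  ext i
  refine Fin.cases ?_ (fun j => ?_) i
  · simp [h]
  · simp [pre]

theorem eq_insert {m : ℕ} (ε : Finset (Fin (m + 1))) (h : 0 ∈ ε) :
    ε = insert 0 ((pre ε).map (Fin.succEmb m)) := by
  ext i
  refine Fin.cases ?_ (fun j => ?_) i
  · simp [h]
  · simp [pre, Fin.succ_ne_zero]

theorem zero_notMem {m : ℕ} (s : Finset (Fin m)) : (0 : Fin (m + 1)) ∉ s.map (Fin.succEmb m) := by
  simp [Fin.succ_ne_zero]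

theorem sum_map {m : ℕ} {B : Type} [AddCommGroup B] (s : Finset (Fin m))
    (g : Finset (Fin (m + 1)) → B) :
    ∑ ε ∈ (s.map (Fin.succEmb m)).powerset, g ε =
      ∑ ε ∈ s.powerset, g (ε.map (Fin.succEmb m)) := by
  symm
  refine sum_bij (fun ε _ => ε.map (Fin.succEmb m)) ?_ ?_ ?_ ?_
  · intro ε hε
    rw [mem_powerset] at hε ⊢
    exact map_subset_map.2 hε
  · intro a _ b _ h
    exact map_injective _ h
  · intro ε hε
    rw [mem_powerset] at hε
    have h0 : 0 ∉ ε := fun h => zero_notMem s (hε h)
    refine ⟨pre ε, ?_, (eq_map ε h0).symm⟩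
    rw [mem_powerset, ← map_subset_map (f := Fin.succEmb m), ← eq_map ε h0]
    exact hε
  · intro a _
    rfl

theorem core (hEXA : T_EXA) (n : ℕ) (w : SWd n) : ∀ m : ℕ, dbl w = m →
    ∃ (r : Finset (Fin m) → Wd n) (q : Finset (Fin m) → SWd n), (∀ ε, run (r ε) = run w) ∧
    (∀ δ, run (q δ) = run w ∧ dbl (q δ) = δ.card) ∧ q univ = w ∧
    ∀ (B : Type) [AddCommGroup B] (F : Wd n → B),
      ∀ δ, ext F [] (q δ) = ∑ ε ∈ δ.powerset, (-1 : ℤ) ^ (δ.card - ε.card) • F (r ε) := by
  have hcons : ∀ (B : Type) [AddCommGroup B] (F : Wd n → B) (x : Fin n × Bool) (v : SWd n),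
      ext F [x] v = ext (fun r => F (x :: r)) [] v := by
    intro B _ F x v
    exact hEXA.2.1 B n F [x] [] v
  induction w with
  | nil =>
    intro m hm
    obtain rfl : m = 0 := hm.symm
    refine ⟨fun _ => [], fun _ => [], fun _ => rfl, fun δ => ⟨rfl, ?_⟩, rfl, ?_⟩
    · rw [Subsingleton.elim δ ∅]
      rfl
    · intro B _ F δ
      rw [Subsingleton.elim δ ∅, powerset_empty, sum_singleton]
      rw [card_empty, pow_zero, one_smul]
      rfl
  | cons x w ih =>
    intro m hm
    obtain ⟨i, s⟩ := x
    cases s with
    | some b =>
      have hm' : dbl w = m := by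
        rw [← hm]
        simp [dbl]
      obtain ⟨r, q, h1, h2, h3, h4⟩ := ih m hm'
      refine ⟨fun ε => (i, b) :: r ε, fun δ => (i, some b) :: q δ, ?_, ?_, ?_, ?_⟩
      · intro ε
        funext p
        show run (r ε) (tr i p) = run w (tr i p)
        rw [h1]
      · intro δ
        refine ⟨?_, ?_⟩
        · funext p
          show run (q δ) (tr i p) = run w (tr i p)
          rw [(h2 δ).1]
        · rw [← (h2 δ).2]
          simp [dbl]
      · show (i, some b) :: q univ = _
        rw [h3]
      · intro B _ F δ
        show ext F [(i, b)] (q δ) = _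
        rw [hcons, h4]
    | none =>
      obtain ⟨m', rfl⟩ : ∃ m', m = m' + 1 := ⟨dbl w, by rw [← hm]; simp [dbl]⟩
      have hm' : dbl w = m' := by
        have : dbl ((i, none) :: w) = dbl w + 1 := by simp [dbl]
        omega
      obtain ⟨r, q, h1, h2, h3, h4⟩ := ih m' hm'
      refine ⟨fun ε => (i, decide (0 ∈ ε)) :: r (pre ε),
        fun δ => (i, if 0 ∈ δ then none else some false) :: q (pre δ), ?_, ?_, ?_, ?_⟩
      · intro ε
        funext p
        show run (r (pre ε)) (tr i p) = run w (tr i p)
        rw [h1]
      · intro δ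
        refine ⟨?_, ?_⟩
        · funext p
          show run (q (pre δ)) (tr i p) = run w (tr i p)
          rw [(h2 _).1]
        · by_cases h : 0 ∈ δ
          · have e1 : δ.card = (pre δ).card + 1 := by
              conv_lhs => rw [eq_insert δ h]
              rw [card_insert_of_notMem (zero_notMem _), card_map]
            show dbl ((i, if 0 ∈ δ then none else some false) :: q (pre δ)) = _
            rw [if_pos h, e1, ← (h2 _).2]
            simp [dbl]
          · have e1 : δ.card = (pre δ).card := by
              conv_lhs => rw [eq_map δ h]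
              rw [card_map]
            show dbl ((i, if 0 ∈ δ then none else some false) :: q (pre δ)) = _
            rw [if_neg h, e1, ← (h2 _).2]
            simp [dbl]
      · show (i, if 0 ∈ univ then none else some false) :: q (pre univ) = _
        have e1 : pre (univ : Finset (Fin (m' + 1))) = univ := by
          ext j
          simp [pre]
        rw [if_pos (mem_univ _), e1, h3]
      · intro B _ F δ
        by_cases h : 0 ∈ δ
        · have e1 : δ.card = (pre δ).card + 1 := by
            conv_lhs => rw [eq_insert δ h]
            rw [card_insert_of_notMem (zero_notMem _), card_map]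
          show ext F [] ((i, if 0 ∈ δ then none else some false) :: q (pre δ)) = _
          rw [if_pos h]
          show ext F [(i, true)] (q (pre δ)) - ext F [(i, false)] (q (pre δ)) = _
          rw [hcons, hcons, h4, h4, e1]
          conv_rhs => rw [eq_insert δ h]
          rw [sum_powerset_insert (zero_notMem _), sum_map, sum_map, pre_insert, sub_eq_add_neg,
            add_comm, ← sum_neg_distrib]
          congr 1
          · refine sum_congr rfl fun ε hε => ?_
            have hc := card_le_card (mem_powerset.1 hε)
            beta_reduce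
            rw [card_map, pre_map, decide_eq_false (zero_notMem ε),
              show (pre δ).card + 1 - ε.card = ((pre δ).card - ε.card) + 1 from by omega, pow_succ,
              mul_neg_one, neg_smul]
          · refine sum_congr rfl fun ε hε => ?_
            beta_reduce
            rw [card_insert_of_notMem (zero_notMem _), card_map, pre_insert,
              decide_eq_true (mem_insert_self _ _), Nat.add_sub_add_right]
        · have e1 : δ.card = (pre δ).card := by
            conv_lhs => rw [eq_map δ h]
            rw [card_map]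
          show ext F [] ((i, if 0 ∈ δ then none else some false) :: q (pre δ)) = _
          rw [if_neg h]
          show ext F [(i, false)] (q (pre δ)) = _
          rw [hcons, h4, e1]
          conv_rhs => rw [eq_map δ h]
          rw [sum_map, pre_map]
          refine sum_congr rfl fun ε _ => ?_
          beta_reduce
          rw [card_map, pre_map, decide_eq_false (zero_notMem ε)]

theorem res (hEXA : T_EXA) : T_RES := by
  intro n w
  obtain ⟨r, q, h1, h2, h3, h4⟩ := core hEXA n w _ rfl
  refine ⟨r, q, h1, h2, fun B _ F => ⟨?_, h4 B F⟩⟩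
  have h := h4 B F univ
  rw [h3, powerset_univ, card_univ, Fintype.card_fin] at h
  exact h

end Pool.Agent.H21.LNT
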